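import Mathlib

/-!
Three-body problem, equal masses: the algebra at a syzygy.
-/

set_option autoImplicit false

namespace Pool.Agent.H376Z.TB

/-- a concave function on the line which is bounded below is constant -/
theorem concave_const {f f' f'' : ℝ → ℝ} (h1 : ∀ t, HasDerivAt f (f' t) t)
    (h2 : ∀ t, HasDerivAt f' (f'' t) t) (h3 : ∀ t, f'' t ≤ 0) (h4 : ∀ t, 0 ≤ f t) (t : ℝ) :
    f' t = 0 := by
  have anti : Antitone f' :=
    antitone_of_deriv_nonpos (fun x => (h2 x).differentiableAt) (fun x => by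
      rw [(h2 x).deriv]; exact h3 x)
  have hc : Continuous f := continuous_iff_continuousAt.mpr fun x => (h1 x).continuousAt
  by_contra hne
  rcases lt_or_gt_of_ne hne with h | h
  · set b := t + (f t + 1) / (-f' t) with hb
    have hpos : 0 < (f t + 1) / (-f' t) := div_pos (by linarith [h4 t]) (by linarith)
    obtain ⟨c, hc1, hc2⟩ := exists_hasDerivAt_eq_slope f f' (show t < b by linarith)
      hc.continuousOn (fun x _ => h1 x)
    have h5 : f' c ≤ f' t := anti hc1.1.le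
    have h6 : b - t = (f t + 1) / (-f' t) := by ring
    rw [hc2, h6, div_le_iff₀ hpos] at h5
    have h7 : f' t * ((f t + 1) / (-f' t)) = -(f t + 1) := by field_simp
    linarith [h4 b]
  · set b := t - (f t + 1) / (f' t) with hb
    have hpos : 0 < (f t + 1) / (f' t) := div_pos (by linarith [h4 t]) h
    obtain ⟨c, hc1, hc2⟩ := exists_hasDerivAt_eq_slope f f' (show b < t by linarith)
      hc.continuousOn (fun x _ => h1 x)
    have h5 : f' t ≤ f' c := anti hc1.2.le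
    have h6 : t - b = (f t + 1) / (f' t) := by ring
    rw [hc2, h6, le_div_iff₀ hpos] at h5
    have h7 : f' t * ((f t + 1) / (f' t)) = (f t + 1) := by field_simp
    linarith [h4 b]

theorem concave_zero {f f' f'' : ℝ → ℝ} (h1 : ∀ t, HasDerivAt f (f' t) t)
    (h2 : ∀ t, HasDerivAt f' (f'' t) t) (h3 : ∀ t, f'' t ≤ 0) (h4 : ∀ t, 0 ≤ f t) (t : ℝ) :
    f'' t = 0 := by
  have : f' = fun _ => 0 := funext (concave_const h1 h2 h3 h4)
  have h5 := h2 t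
  rw [this] at h5
  exact h5.unique (hasDerivAt_const t 0)

/-- polynomial expressions -/
inductive Ex : Type
  | p : ℕ → ℕ → Ex
  | c : ℝ → Ex
  | add : Ex → Ex → Ex
  | mul : Ex → Ex → Ex

noncomputable def ev (x : ℕ → ℝ) : Ex → ℝ
  | Ex.p i n => x i ^ n
  | Ex.c a => a
  | Ex.add a b => ev x a + ev x b
  | Ex.mul a b => ev x a * ev x b

noncomputable def D (vf : ℕ → Ex) : Ex → Ex
  | Ex.p i n => Ex.mul (Ex.mul (Ex.c n) (Ex.p i (n - 1))) (vf i)
  | Ex.c _ => Ex.c 0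
  | Ex.add a b => Ex.add (D vf a) (D vf b)
  | Ex.mul a b => Ex.add (Ex.mul (D vf a) b) (Ex.mul a (D vf b))

theorem hasDeriv_ev (vf : ℕ → Ex) (x : ℝ → ℕ → ℝ)
    (h : ∀ i t, HasDerivAt (fun t => x t i) (ev (x t) (vf i)) t) (e : Ex) (t : ℝ) :
    HasDerivAt (fun t => ev (x t) e) (ev (x t) (D vf e)) t := by
  induction e with
  | p i n => exact (h i t).pow n
  | c a => exact hasDerivAt_const t a
  | add a b ha hb => exact ha.add hb
  | mul a b ha hb => exact ha.mul hb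

theorem vanish (vf : ℕ → Ex) (x : ℝ → ℕ → ℝ)
    (h : ∀ i t, HasDerivAt (fun t => x t i) (ev (x t) (vf i)) t) (e : Ex) (k : ℝ)
    (he : ∀ t, ev (x t) e = k) (t : ℝ) : ev (x t) (D vf e) = 0 := by
  have h1 := hasDeriv_ev vf x h e t
  have : (fun t => ev (x t) e) = fun _ => k := funext he
  rw [this] at h1
  exact h1.unique (hasDerivAt_const t k)

/-- second derivative of a squared distance -/
def FF (m c S p1 p2 p3 s1 s2 s3 : ℝ) : ℝ :=
  c * (2 * S - 3 * s1) + m * (-4 * p1 + p2 ^ 3 * (2 * s3 - S) + p3 ^ 3 * (2 * s2 - S))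

noncomputable def exF (m c S : ℝ) (i j k : ℕ) : Ex :=
  Ex.add (Ex.add (Ex.c (2 * c * S)) (Ex.mul (Ex.c (-3 * c)) (Ex.p (i + 3) 1)))
    (Ex.add (Ex.mul (Ex.c (-4 * m)) (Ex.p i 1))
      (Ex.add (Ex.mul (Ex.p j 3) (Ex.add (Ex.mul (Ex.c (2 * m)) (Ex.p (k + 3) 1)) (Ex.c (-m * S))))
        (Ex.mul (Ex.p k 3) (Ex.add (Ex.mul (Ex.c (2 * m)) (Ex.p (j + 3) 1)) (Ex.c (-m * S))))))

noncomputable def exR (i : ℕ) : Ex := Ex.mul (Ex.c (-1 / 2)) (Ex.mul (Ex.p i 3) (Ex.p (i + 6) 1))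

noncomputable def vfd (m c S : ℝ) : ℕ → Ex
  | 0 => exR 0
  | 1 => exR 1
  | 2 => exR 2
  | 3 => Ex.p 6 1
  | 4 => Ex.p 7 1
  | 5 => Ex.p 8 1
  | 6 => exF m c S 0 1 2
  | 7 => exF m c S 1 2 0
  | 8 => exF m c S 2 0 1
  | _ + 9 => Ex.c 0

def st (p1 p2 p3 s1 s2 s3 g1 g2 g3 : ℝ) : ℕ → ℝ
  | 0 => p1
  | 1 => p2
  | 2 => p3
  | 3 => s1
  | 4 => s2
  | 5 => s3
  | 6 => g1
  | 7 => g2
  | 8 => g3
  | _ + 9 => 0

noncomputable def G0 : Ex := Ex.add (Ex.p 0 1) (Ex.add (Ex.p 1 1) (Ex.p 2 1))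

noncomputable def G1 : Ex := Ex.add (Ex.mul (Ex.p 0 3) (Ex.p 6 1))
  (Ex.add (Ex.mul (Ex.p 1 3) (Ex.p 7 1)) (Ex.mul (Ex.p 2 3) (Ex.p 8 1)))

noncomputable def g2 (m c S : ℝ) (i j k : ℕ) : Ex :=
  Ex.add (Ex.mul (Ex.c (-3 / 2)) (Ex.mul (Ex.p i 5) (Ex.p (i + 6) 2)))
    (Ex.mul (Ex.p i 3) (exF m c S i j k))

noncomputable def G2 (m c S : ℝ) : Ex :=
  Ex.add (g2 m c S 0 1 2) (Ex.add (g2 m c S 1 2 0) (g2 m c S 2 0 1))

theorem D_G0 (m c S : ℝ) (x : ℕ → ℝ) : ev x (D (vfd m c S) G0) = -1 / 2 * ev x G1 := by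
  simp only [G0, G1, D, ev, vfd, exR]
  norm_num
  ring

theorem D_G1 (m c S : ℝ) (x : ℕ → ℝ) : ev x (D (vfd m c S) G1) = ev x (G2 m c S) := by
  simp only [G1, G2, g2, D, ev, vfd, exR, exF]
  norm_num
  ring

theorem euler_G2 (m p g : ℝ) (hp : p ≠ 0) :
    ev (st p p (p / 2) (1 / p ^ 2) (1 / p ^ 2) (4 / p ^ 2) g (-g) 0)
      (G2 m (5 / 6 * m * p ^ 3) (6 / p ^ 2)) = p ^ 4 * (35 / 4 * m - 3 * (p * g ^ 2)) := by
  simp only [G2, g2, ev, exF, st]
  norm_num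
  field_simp
  ring

theorem euler_G4 (m p g : ℝ) (hp : p ≠ 0) :
    ev (st p p (p / 2) (1 / p ^ 2) (1 / p ^ 2) (4 / p ^ 2) g (-g) 0)
      (D (vfd m (5 / 6 * m * p ^ 3) (6 / p ^ 2)) (D (vfd m (5 / 6 * m * p ^ 3) (6 / p ^ 2))
        (G2 m (5 / 6 * m * p ^ 3) (6 / p ^ 2)))) =
      p ^ 7 * (-(605 / 2) * m ^ 2 + 819 / 4 * m * (p * g ^ 2) - 105 / 4 * (p * g ^ 2) ^ 2) := by
  simp only [G2, g2, D, ev, exF, exR, vfd, st]
  norm_num
  field_simp
  ring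

theorem coll_G2 (m a b : ℝ) (ha : 0 < a) (hb : 0 < b) :
    ev (st (1 / a) (1 / b) (1 / (a + b)) (a ^ 2) (b ^ 2) ((a + b) ^ 2) 0 0 0)
      (G2 m (2 * m * (1 / a + 1 / b + 1 / (a + b)) / (a ^ 2 + b ^ 2 + (a + b) ^ 2))
        (a ^ 2 + b ^ 2 + (a + b) ^ 2)) =
      m * (16 * b ^ 10 + 98 * a * b ^ 9 + 276 * a ^ 2 * b ^ 8 + 466 * a ^ 3 * b ^ 7 +
        548 * a ^ 4 * b ^ 6 + 552 * a ^ 5 * b ^ 5 + 548 * a ^ 6 * b ^ 4 + 466 * a ^ 7 * b ^ 3 +
        276 * a ^ 8 * b ^ 2 + 98 * a ^ 9 * b + 16 * a ^ 10) /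
        ((a ^ 2 + b ^ 2 + (a + b) ^ 2) * (a ^ 3 * b ^ 3 * (a + b) ^ 6)) := by
  have h1 : a + b ≠ 0 := by positivity
  have h2 : a ^ 2 + b ^ 2 + (a + b) ^ 2 ≠ 0 := by positivity
  have h3 := ha.ne'
  have h4 := hb.ne'
  simp only [G2, g2, ev, exF, st]
  norm_num
  field_simp
  ring

theorem core (m c S W : ℝ) (hm : 0 < m) (p1 p2 p3 s1 s2 s3 g1 g2' g3 : ℝ → ℝ)
    (hp1 : ∀ t, HasDerivAt p1 (-1 / 2 * (p1 t ^ 3 * g1 t)) t)
    (hp2 : ∀ t, HasDerivAt p2 (-1 / 2 * (p2 t ^ 3 * g2' t)) t)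
    (hp3 : ∀ t, HasDerivAt p3 (-1 / 2 * (p3 t ^ 3 * g3 t)) t)
    (hs1 : ∀ t, HasDerivAt s1 (g1 t) t) (hs2 : ∀ t, HasDerivAt s2 (g2' t) t)
    (hs3 : ∀ t, HasDerivAt s3 (g3 t) t)
    (hg1 : ∀ t, HasDerivAt g1 (FF m c S (p1 t) (p2 t) (p3 t) (s1 t) (s2 t) (s3 t)) t)
    (hg2 : ∀ t, HasDerivAt g2' (FF m c S (p2 t) (p3 t) (p1 t) (s2 t) (s3 t) (s1 t)) t)
    (hg3 : ∀ t, HasDerivAt g3 (FF m c S (p3 t) (p1 t) (p2 t) (s3 t) (s1 t) (s2 t)) t)
    (hW : ∀ t, p1 t + p2 t + p3 t = W) (hc : c * S = 2 * m * W)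
    (t : ℝ) (a b : ℝ) (ha : 0 < a) (hb : 0 < b) (e1 : p1 t = 1 / a) (e2 : p2 t = 1 / b)
    (e3 : p3 t = 1 / (a + b)) (e4 : s1 t = a ^ 2) (e5 : s2 t = b ^ 2) (e6 : s3 t = (a + b) ^ 2)
    (hS : S = a ^ 2 + b ^ 2 + (a + b) ^ 2) (k1 : g1 t + g2' t + g3 t = 0)
    (k2 : s1 t * g1 t + s2 t * g2' t + s3 t * g3 t = 0) : False := by
  let x : ℝ → ℕ → ℝ := fun t =>
    st (p1 t) (p2 t) (p3 t) (s1 t) (s2 t) (s3 t) (g1 t) (g2' t) (g3 t)
  have hx : ∀ i t, HasDerivAt (fun t => x t i) (ev (x t) (vfd m c S i)) t := by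
    intro i t
    match i with
    | 0 => exact (hp1 t).congr_deriv (by simp [x, vfd, exR, ev, st])
    | 1 => exact (hp2 t).congr_deriv (by simp [x, vfd, exR, ev, st])
    | 2 => exact (hp3 t).congr_deriv (by simp [x, vfd, exR, ev, st])
    | 3 => exact (hs1 t).congr_deriv (by simp [x, vfd, ev, st])
    | 4 => exact (hs2 t).congr_deriv (by simp [x, vfd, ev, st])
    | 5 => exact (hs3 t).congr_deriv (by simp [x, vfd, ev, st])
    | 6 => exact (hg1 t).congr_deriv (by simp [x, vfd, exF, ev, st, FF]; ring)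
    | 7 => exact (hg2 t).congr_deriv (by simp [x, vfd, exF, ev, st, FF]; ring)
    | 8 => exact (hg3 t).congr_deriv (by simp [x, vfd, exF, ev, st, FF]; ring)
    | n + 9 => exact hasDerivAt_const t (0 : ℝ)
  have h0 : ∀ t, ev (x t) G0 = W := by
    intro t
    rw [← hW t]
    simp [x, G0, ev, st, add_assoc]
  have h1 : ∀ t, ev (x t) G1 = 0 := by
    intro t
    have := vanish _ x hx G0 W h0 t
    rw [D_G0] at this
    linarith
  have h2 : ∀ t, ev (x t) (G2 m c S) = 0 := by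
    intro t
    have := vanish _ x hx G1 0 h1 t
    rwa [D_G1] at this
  have h4 := vanish _ x hx _ 0 (vanish _ x hx _ 0 h2) t
  have hSpos : 0 < S := by rw [hS]; positivity
  have hab : a + b ≠ 0 := by positivity
  have hc' : c = 2 * m * (1 / a + 1 / b + 1 / (a + b)) / S := by
    rw [eq_div_iff hSpos.ne', hc, ← hW t, e1, e2, e3]
  have k3 : (1 / a) ^ 3 * g1 t + ((1 / b) ^ 3 * g2' t + (1 / (a + b)) ^ 3 * g3 t) = 0 := by
    have := h1 t
    simpa [x, G1, ev, st, e1, e2, e3] using this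
  rw [e4, e5, e6] at k2
  by_cases hE : a = b
  · subst hE
    have hg3' : g3 t = 0 := by
      have : 3 * a ^ 2 * g3 t = 0 := by linear_combination k2 - a ^ 2 * k1
      rcases mul_eq_zero.mp this with h | h
      · exact absurd h (by positivity)
      · exact h
    have hg2' : g2' t = -g1 t := by linarith
    have hp : (1 / a) ≠ 0 := by positivity
    have hxt : x t = st (1 / a) (1 / a) (1 / a / 2) (1 / (1 / a) ^ 2) (1 / (1 / a) ^ 2)
        (4 / (1 / a) ^ 2) (g1 t) (-g1 t) 0 := by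
      simp only [x, e1, e2, e3, e4, e5, e6, hg3', hg2']
      congr 1 <;> field_simp <;> ring
    have hS' : S = 6 / (1 / a) ^ 2 := by rw [hS]; field_simp; ring
    have hc'' : c = 5 / 6 * m * (1 / a) ^ 3 := by rw [hc', hS]; field_simp; ring
    have h5 := h2 t
    rw [hxt, hc'', hS', euler_G2 m _ _ hp] at h5
    rw [hxt, hc'', hS', euler_G4 m _ _ hp] at h4
    have h6 : 1 / a * g1 t ^ 2 = 35 / 12 * m := by
      rcases mul_eq_zero.mp h5 with h | h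
      · exact absurd h (by positivity)
      · linarith
    rw [h6] at h4
    rcases mul_eq_zero.mp h4 with h | h
    · exact absurd h (by positivity)
    · have : 0 < m ^ 2 := by positivity
      nlinarith
  · have hg3' : g3 t = -g1 t - g2' t := by linarith
    rw [hg3'] at k2 k3
    have k4 : (b * (a + b)) ^ 3 * g1 t + (a * (a + b)) ^ 3 * g2' t +
        (a * b) ^ 3 * (-g1 t - g2' t) = 0 := by
      have := congrArg (fun z => z * (a * b * (a + b)) ^ 3) k3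
      simp only [zero_mul] at this
      rw [← this]
      field_simp
      ring
    have hq : 0 < a * b * (a + b) * (2 * (a ^ 4 + a ^ 2 * b ^ 2 + b ^ 4) +
        7 * a * b * (a ^ 2 + b ^ 2) + 9 * a ^ 2 * b ^ 2) := by positivity
    have hne : a - b ≠ 0 := sub_ne_zero.mpr hE
    have z2 : g2' t = 0 := by
      have : (a - b) * (a * b * (a + b) * (2 * (a ^ 4 + a ^ 2 * b ^ 2 + b ^ 4) +
          7 * a * b * (a ^ 2 + b ^ 2) + 9 * a ^ 2 * b ^ 2)) * g2' t = 0 := by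
        linear_combination ((a + b) ^ 2 - a ^ 2) * k4 +
          ((b * (a + b)) ^ 3 - (a * b) ^ 3) * k2
      rcases mul_eq_zero.mp this with h | h
      · exact absurd h (mul_ne_zero hne hq.ne')
      · exact h
    have z1 : g1 t = 0 := by
      rw [z2] at k2
      have : (b * (2 * a + b)) * g1 t = 0 := by linear_combination -k2
      rcases mul_eq_zero.mp this with h | h
      · exact absurd h (by positivity)
      · exact h
    have z3 : g3 t = 0 := by rw [hg3', z1, z2]; ring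
    have hxt : x t = st (1 / a) (1 / b) (1 / (a + b)) (a ^ 2) (b ^ 2) ((a + b) ^ 2) 0 0 0 := by
      simp only [x, e1, e2, e3, e4, e5, e6, z1, z2, z3]
    have h5 := h2 t
    rw [hxt, hc', hS, coll_G2 m a b ha hb] at h5
    exact absurd h5 (by positivity)

end Pool.Agent.H376Z.TB
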