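import Pool.Agent.H376Z.TB.Sol

/-!
A solution with zero angular momentum cannot stay far out; limits of solutions.
-/

set_option autoImplicit false

namespace Pool.Agent.H376Z.TB

open Filter Topology

variable {m h : ℝ} {d1 d2 d3 e1 e2 e3 : ℝ → ℂ}

theorem dot_nonneg (z : ℂ) : 0 ≤ dot z z := by rw [dot_self]; positivity

theorem lagrange_id (z w : ℂ) : dot z z * dot w w = dot z w ^ 2 + crs z w ^ 2 := by
  simp only [dot, crs]; ring

theorem dot_outer (m : ℝ) {a b c : ℂ} (hs : a + b + c = 0) (hb : b ≠ 0) (hc : c ≠ 0) :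
    dot (b - c) (acc m b c a - acc m c a b) = -(3 * m) * (‖b‖⁻¹ + ‖c‖⁻¹ +
      (‖b‖⁻¹ ^ 3 + ‖c‖⁻¹ ^ 3) * ((dot (b - c) (b - c) - dot a a) / 4)) := by
  obtain ⟨h1, h2⟩ := third (show b + c + a = 0 by rw [← hs]; ring)
  have h3 := inv_sq_mul hb
  have h4 := inv_sq_mul hc
  simp only [dot, Complex.sub_re, Complex.sub_im, acc_re, acc_im, h1, h2] at h3 h4 ⊢
  linear_combination (-3 * m * ‖b‖⁻¹) * h3 + (-3 * m * ‖c‖⁻¹) * h4

theorem crs_outer {a b c u v w : ℂ} (hs : a + b + c = 0) (hv : u + v + w = 0)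
    (k2 : crs a u + crs b v + crs c w = 0) : crs (b - c) (v - w) = -3 * crs a u := by
  obtain ⟨h1, h2⟩ := third hs
  obtain ⟨h3, h4⟩ := third hv
  simp only [crs, Complex.sub_re, Complex.sub_im, h1, h2, h3, h4] at k2 ⊢
  linear_combination 2 * k2

theorem Sol.far1 (H : Sol m h d1 d2 d3 e1 e2 e3) (hm : 0 < m) (hh : 0 < h)
    (hW : ∀ t, m * (‖d1 t‖⁻¹ + ‖d2 t‖⁻¹ + ‖d3 t‖⁻¹) ≤ 3 * h) (δ : ℝ) (hδ : 0 < δ)
    (h1 : ∀ t, ‖d1 t‖ ≤ δ) : ∃ t, ‖d2 t - d3 t‖ ≤ δ + 18 * δ ^ 2 * h / m := by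
  by_contra hc
  push Not at hc
  have hq : 0 < 18 * δ ^ 2 * h / m := by positivity
  have hR : ∀ t, 0 < ‖d2 t - d3 t‖ := fun t => by linarith [hc t]
  have hD : ∀ t, HasDerivAt (fun t => d2 t - d3 t) (e2 t - e3 t) t :=
    fun t => (H.hd2 t).sub (H.hd3 t)
  have hF : ∀ t, HasDerivAt (fun t => e2 t - e3 t)
      (acc m (d2 t) (d3 t) (d1 t) - acc m (d3 t) (d1 t) (d2 t)) t :=
    fun t => (H.he2 t).sub (H.he3 t)
  have f1 := fun t => hd_norm (hD t) (norm_pos_iff.mp (hR t))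
  have f2 := fun t => (hd_dot (hD t) (hF t)).div (f1 t) (hR t).ne'
  have hneg : ∀ t, ((dot (e2 t - e3 t) (e2 t - e3 t) + dot (d2 t - d3 t)
      (acc m (d2 t) (d3 t) (d1 t) - acc m (d3 t) (d1 t) (d2 t))) * ‖d2 t - d3 t‖ -
      dot (d2 t - d3 t) (e2 t - e3 t) * (dot (d2 t - d3 t) (e2 t - e3 t) / ‖d2 t - d3 t‖)) /
      ‖d2 t - d3 t‖ ^ 2 < 0 := by
    intro t
    have hRt := hR t
    have hct := hc t
    set R := ‖d2 t - d3 t‖ with hRdef
    apply div_neg_of_neg_of_pos _ (by positivity)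
    have l1 := lagrange_id (d2 t - d3 t) (e2 t - e3 t)
    rw [dot_self, ← hRdef, crs_outer (H.sd t) (H.se t) (H.am t)] at l1
    have l2 := lagrange_id (d1 t) (e1 t)
    have l3 : dot (e1 t) (e1 t) ≤ 12 * h := by
      have := H.en t
      linarith [dot_nonneg (e2 t), dot_nonneg (e3 t), hW t]
    have l4 : dot (d1 t) (d1 t) ≤ δ ^ 2 := by
      rw [dot_self]; exact pow_le_pow_left₀ (norm_nonneg _) (h1 t) 2
    have l5 : crs (d1 t) (e1 t) ^ 2 ≤ δ ^ 2 * (12 * h) := by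
      have := mul_le_mul l4 l3 (dot_nonneg _) (by positivity)
      nlinarith [sq_nonneg (dot (d1 t) (e1 t))]
    have l6 := dot_outer m (H.sd t) (H.n2 t) (H.n3 t)
    rw [dot_self (d2 t - d3 t), ← hRdef] at l6
    have p2 := norm_pos_iff.mpr (H.n2 t)
    have p3 := norm_pos_iff.mpr (H.n3 t)
    have r2 : ‖d2 t‖ ≤ R := by
      have e : (2 : ℂ) * d2 t = (d2 t - d3 t) - d1 t := by linear_combination H.sd t
      have := norm_sub_le (d2 t - d3 t) (d1 t)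
      rw [← e, norm_mul, Complex.norm_two] at this
      linarith [h1 t]
    have r3 : ‖d3 t‖ ≤ R := by
      have e : (2 : ℂ) * d3 t = -((d2 t - d3 t) + d1 t) := by linear_combination H.sd t
      have := norm_add_le (d2 t - d3 t) (d1 t)
      rw [← norm_neg, ← e, norm_mul, Complex.norm_two] at this
      linarith [h1 t]
    have i2 : R⁻¹ ≤ ‖d2 t‖⁻¹ := inv_anti₀ p2 r2
    have i3 : R⁻¹ ≤ ‖d3 t‖⁻¹ := inv_anti₀ p3 r3
    have l7 : 0 ≤ (‖d2 t‖⁻¹ ^ 3 + ‖d3 t‖⁻¹ ^ 3) * ((R ^ 2 - dot (d1 t) (d1 t)) / 4) := by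
      apply mul_nonneg (by positivity)
      have : δ ^ 2 ≤ R ^ 2 := pow_le_pow_left₀ hδ.le (by linarith) 2
      linarith
    have l8 : dot (d2 t - d3 t) (acc m (d2 t) (d3 t) (d1 t) - acc m (d3 t) (d1 t) (d2 t)) ≤
        -(6 * m) * R⁻¹ := by
      rw [l6]
      nlinarith
    have l9 : 108 * δ ^ 2 * h < 6 * m * R := by
      have : 18 * δ ^ 2 * h / m < R := by linarith
      rw [div_lt_iff₀ hm] at this
      linarith
    set A := dot (d2 t - d3 t) (acc m (d2 t) (d3 t) (d1 t) - acc m (d3 t) (d1 t) (d2 t))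
    set P := dot (d2 t - d3 t) (e2 t - e3 t)
    set Q := dot (e2 t - e3 t) (e2 t - e3 t)
    have l10 : A * R ^ 2 ≤ -(6 * m) * R := by
      have := mul_le_mul_of_nonneg_right l8 (sq_nonneg R)
      have e : -(6 * m) * R⁻¹ * R ^ 2 = -(6 * m) * R := by field_simp
      linarith
    have e : (Q + A) * R - P * (P / R) = (R ^ 2 * Q - P ^ 2 + A * R ^ 2) / R := by
      field_simp; ring
    rw [e]
    apply div_neg_of_neg_of_pos _ hRt
    nlinarith
  exact (hneg 0).ne (concave_zero f1 f2 (fun t => (hneg t).le) (fun t => norm_nonneg _) 0)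

theorem inertia_eq {a b c : ℂ} (hs : a + b + c = 0) :
    ‖a‖ ^ 2 + ‖b‖ ^ 2 + ‖c‖ ^ 2 = 3 / 2 * ‖a‖ ^ 2 + 1 / 2 * ‖b - c‖ ^ 2 := by
  obtain ⟨h1, h2⟩ := third hs
  simp only [← dot_self, dot, Complex.sub_re, Complex.sub_im, h1, h2]
  ring

/-- the bound for the moment of inertia -/
noncomputable def CC (m h : ℝ) : ℝ :=
  6 * (3 * m / h) ^ 2 + 1 / 2 * (3 * m / h + 18 * (3 * m / h) ^ 2 * h / m) ^ 2

theorem Sol.far2 (H : Sol m h d1 d2 d3 e1 e2 e3) (hm : 0 < m) (hh : 0 < h)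
    (hW : ∀ t, m * (‖d1 t‖⁻¹ + ‖d2 t‖⁻¹ + ‖d3 t‖⁻¹) ≤ 3 * h)
    (h1 : ∀ t, ‖d1 t‖ ≤ 3 * m / h) :
    ∃ t, ‖d1 t‖ ^ 2 + ‖d2 t‖ ^ 2 + ‖d3 t‖ ^ 2 ≤ CC m h := by
  obtain ⟨t, ht⟩ := H.far1 hm hh hW (3 * m / h) (by positivity) h1
  refine ⟨t, ?_⟩
  rw [inertia_eq (H.sd t), CC]
  have a1 := pow_le_pow_left₀ (norm_nonneg _) ht 2
  have a2 := pow_le_pow_left₀ (norm_nonneg _) (h1 t) 2
  nlinarith [sq_nonneg (3 * m / h)]

theorem two_close {a b c : ℂ} (hs : a + b + c = 0) {δ : ℝ} (ha : ‖a‖ ≤ δ) (hb : ‖b‖ ≤ δ) :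
    ‖a‖ ^ 2 + ‖b‖ ^ 2 + ‖c‖ ^ 2 ≤ 6 * δ ^ 2 := by
  have e : c = -(a + b) := by linear_combination hs
  have := norm_add_le a b
  rw [← norm_neg, ← e] at this
  have a1 := pow_le_pow_left₀ (norm_nonneg _) ha 2
  have a2 := pow_le_pow_left₀ (norm_nonneg _) hb 2
  have a3 := pow_le_pow_left₀ (norm_nonneg _) (show ‖c‖ ≤ 2 * δ by linarith) 2
  nlinarith

theorem closed_cover {A B : Set ℝ} (hA : IsClosed A) (hB : IsClosed B) (h1 : ∀ t, t ∈ A ∨ t ∈ B)
    (h2 : ∀ t, t ∈ A → t ∈ B → False) : (∀ t, t ∈ A) ∨ (∀ t, t ∈ B) := by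
  have := (isPreconnected_iff_subset_of_disjoint_closed.mp (isPreconnected_univ (α := ℝ))) A B hA hB
    (fun t _ => h1 t) (by
      ext t
      simp only [Set.univ_inter, Set.mem_inter_iff, Set.mem_empty_iff_false, iff_false, not_and]
      exact h2 t)
  rcases this with h | h
  · exact Or.inl fun t => h (Set.mem_univ t)
  · exact Or.inr fun t => h (Set.mem_univ t)

theorem Sol.far (H : Sol m h d1 d2 d3 e1 e2 e3) (hm : 0 < m) (hh : 0 < h)
    (hW0 : ∀ t, h ≤ m * (‖d1 t‖⁻¹ + ‖d2 t‖⁻¹ + ‖d3 t‖⁻¹))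
    (hW : ∀ t, m * (‖d1 t‖⁻¹ + ‖d2 t‖⁻¹ + ‖d3 t‖⁻¹) ≤ 3 * h) :
    ∃ t, ‖d1 t‖ ^ 2 + ‖d2 t‖ ^ 2 + ‖d3 t‖ ^ 2 ≤ CC m h := by
  by_contra hc
  push Not at hc
  have hC : 6 * (3 * m / h) ^ 2 ≤ CC m h := by
    rw [CC]; nlinarith [sq_nonneg (3 * m / h + 18 * (3 * m / h) ^ 2 * h / m)]
  have c1 : Continuous d1 := continuous_iff_continuousAt.mpr fun t => (H.hd1 t).continuousAt
  have c2 : Continuous d2 := continuous_iff_continuousAt.mpr fun t => (H.hd2 t).continuousAt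
  have c3 : Continuous d3 := continuous_iff_continuousAt.mpr fun t => (H.hd3 t).continuousAt
  have k1 : IsClosed {t | ‖d1 t‖ ≤ 3 * m / h} := isClosed_le c1.norm continuous_const
  have k2 : IsClosed {t | ‖d2 t‖ ≤ 3 * m / h} := isClosed_le c2.norm continuous_const
  have k3 : IsClosed {t | ‖d3 t‖ ≤ 3 * m / h} := isClosed_le c3.norm continuous_const
  have small : ∀ z : ℂ, 3 * m / h < ‖z‖ → m * ‖z‖⁻¹ < h / 3 := by
    intro z hz
    have h0 : 0 < 3 * m / h := by positivity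
    have := inv_strictAnti₀ h0 hz
    have e : m * (3 * m / h)⁻¹ = h / 3 := by field_simp
    rw [← e]
    exact mul_lt_mul_of_pos_left this hm
  have cov : ∀ t, ‖d1 t‖ ≤ 3 * m / h ∨ ‖d2 t‖ ≤ 3 * m / h ∨ ‖d3 t‖ ≤ 3 * m / h := by
    intro t
    by_contra hn
    push Not at hn
    linarith [small _ hn.1, small _ hn.2.1, small _ hn.2.2, hW0 t]
  have x12 : ∀ t, ‖d1 t‖ ≤ 3 * m / h → ‖d2 t‖ ≤ 3 * m / h → False := fun t a b => by
    linarith [two_close (H.sd t) a b, hc t]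
  have x23 : ∀ t, ‖d2 t‖ ≤ 3 * m / h → ‖d3 t‖ ≤ 3 * m / h → False := fun t a b => by
    linarith [two_close (H.cyc.sd t) a b, hc t]
  have x31 : ∀ t, ‖d3 t‖ ≤ 3 * m / h → ‖d1 t‖ ≤ 3 * m / h → False := fun t a b => by
    linarith [two_close (H.cyc.cyc.sd t) a b, hc t]
  rcases closed_cover k1 (k2.union k3) cov (fun t a b => b.elim (x12 t a) (fun b => x31 t b a))
    with k | k
  · obtain ⟨t, ht⟩ := H.far2 hm hh hW k
    linarith [hc t]
  rcases closed_cover k2 k3 k x23 with k | k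
  · obtain ⟨t, ht⟩ := H.cyc.far2 hm hh (fun t => by linarith [hW t]) k
    linarith [hc t]
  · obtain ⟨t, ht⟩ := H.cyc.cyc.far2 hm hh (fun t => by linarith [hW t]) k
    linarith [hc t]

theorem limit_sol {X : Type} [NormedAddCommGroup X] [NormedSpace ℝ X] [ProperSpace X]
    (Φ : X → X) (K : Set X) (hK : IsClosed K) (hΦ : ∀ x ∈ K, ContinuousAt Φ x)
    (y : ℕ → ℝ → X) (hy : ∀ n t, HasDerivAt (y n) (Φ (y n t)) t) (hyK : ∀ n t, y n t ∈ K)
    (M C : ℝ) (hM : ∀ n t, ‖Φ (y n t)‖ ≤ M) (hC : ∀ n, ‖y n 0‖ ≤ C) :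
    ∃ z : ℝ → X, (∀ t, HasDerivAt z (Φ (z t)) t) ∧
      ∀ t, Tendsto (fun n => y n t) (hyperfilter ℕ) (𝓝 (z t)) := by
  have hM0 : 0 ≤ M := (norm_nonneg _).trans (hM 0 0)
  have lip : ∀ n s t, ‖y n s - y n t‖ ≤ M * ‖s - t‖ := fun n s t =>
    convex_univ.norm_image_sub_le_of_norm_hasDerivWithin_le
      (fun x _ => (hy n x).hasDerivWithinAt) (fun x _ => hM n x) (Set.mem_univ t) (Set.mem_univ s)
  have ex : ∀ t, ∃ z, Tendsto (fun n => y n t) (hyperfilter ℕ) (𝓝 z) := by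
    intro t
    obtain ⟨z, _, hz⟩ := (isCompact_closedBall (0 : X) (C + M * ‖t‖)).ultrafilter_le_nhds
      ((hyperfilter ℕ).map fun n => y n t) (by
        rw [le_principal_iff, Ultrafilter.coe_map, mem_map]
        apply univ_mem'
        intro n
        have h1 := lip n t 0
        have h2 := norm_add_le (y n 0) (y n t - y n 0)
        rw [sub_zero] at h1
        rw [add_sub_cancel] at h2
        simp only [Set.mem_preimage, mem_closedBall_zero_iff]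
        linarith [hC n])
    exact ⟨z, hz⟩
  choose z hz using ex
  refine ⟨z, fun t => ?_, hz⟩
  have hzK : z t ∈ K := hK.mem_of_tendsto (hz t) (Eventually.of_forall fun n => hyK n t)
  rw [hasDerivAt_iff_isLittleO, Asymptotics.isLittleO_iff]
  intro c hc
  obtain ⟨δ, hδ, hcont⟩ := Metric.continuousAt_iff.mp (hΦ _ hzK) c hc
  have hr : 0 < δ / (2 * (M + 1)) := by positivity
  filter_upwards [Metric.ball_mem_nhds t hr] with s hs
  have h1 : ∀ᶠ n in (hyperfilter ℕ : Filter ℕ), ‖(y n s - s • Φ (z t)) - (y n t - t • Φ (z t))‖ ≤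
      c * ‖s - t‖ := by
    filter_upwards [(hz t).eventually (Metric.ball_mem_nhds (z t) (half_pos hδ))] with n hn
    refine (convex_ball t (δ / (2 * (M + 1)))).norm_image_sub_le_of_norm_hasDerivWithin_le
      (f := fun u => y n u - u • Φ (z t)) (f' := fun u => Φ (y n u) - Φ (z t))
      (fun u _ => ?_) (fun u hu => ?_) (Metric.mem_ball_self hr) hs
    · have := (hy n u).sub ((hasDerivAt_id u).smul_const (Φ (z t)))
      rw [one_smul] at this
      exact this.hasDerivWithinAt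
    · rw [← dist_eq_norm]
      apply le_of_lt
      apply hcont
      have a1 := lip n u t
      have a2 : ‖u - t‖ < δ / (2 * (M + 1)) := by rwa [← dist_eq_norm]
      have a3 : M * ‖u - t‖ ≤ δ / 2 := by
        have : (M + 1) * (δ / (2 * (M + 1))) = δ / 2 := by field_simp
        nlinarith [norm_nonneg (u - t)]
      have a4 := dist_triangle (y n u) (y n t) (z t)
      rw [dist_eq_norm (y n u) (y n t)] at a4
      have a5 : dist (y n t) (z t) < δ / 2 := hn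
      linarith
  have h2 : Tendsto (fun n => ‖(y n s - s • Φ (z t)) - (y n t - t • Φ (z t))‖) (hyperfilter ℕ)
      (𝓝 ‖(z s - s • Φ (z t)) - (z t - t • Φ (z t))‖) :=
    (((hz s).sub_const _).sub ((hz t).sub_const _)).norm
  have h3 := le_of_tendsto h2 h1
  have e : z s - z t - (s - t) • Φ (z t) = (z s - s • Φ (z t)) - (z t - t • Φ (z t)) := by
    rw [sub_smul]; abel
  rw [e]
  exact h3

end Pool.Agent.H376Z.TB
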