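import Pool.Agent.H376Z.TB.Far

/-!
The gap around the virial locus.
-/

set_option autoImplicit false

namespace Pool.Agent.H376Z.TB

open Filter Topology

abbrev PS : Type := ℂ × ℂ × ℂ × ℂ × ℂ × ℂ

noncomputable def Phi (m : ℝ) (x : PS) : PS :=
  (x.2.2.2.1, x.2.2.2.2.1, x.2.2.2.2.2, acc m x.1 x.2.1 x.2.2.1, acc m x.2.1 x.2.2.1 x.1,
    acc m x.2.2.1 x.1 x.2.1)

theorem hd_fst {A B : Type} [NormedAddCommGroup A] [NormedSpace ℝ A] [NormedAddCommGroup B]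
    [NormedSpace ℝ B] {f : ℝ → A × B} {f' : A × B} {t : ℝ} (h : HasDerivAt f f' t) :
    HasDerivAt (fun t => (f t).1) f'.1 t :=
  (ContinuousLinearMap.fst ℝ A B).hasFDerivAt.comp_hasDerivAt t h

theorem hd_snd {A B : Type} [NormedAddCommGroup A] [NormedSpace ℝ A] [NormedAddCommGroup B]
    [NormedSpace ℝ B] {f : ℝ → A × B} {f' : A × B} {t : ℝ} (h : HasDerivAt f f' t) :
    HasDerivAt (fun t => (f t).2) f'.2 t :=
  (ContinuousLinearMap.snd ℝ A B).hasFDerivAt.comp_hasDerivAt t h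

theorem tendsto_acc {ι : Type} {l : Filter ι} (m : ℝ) {a b c : ι → ℂ} {x y z : ℂ}
    (ha : Tendsto a l (𝓝 x)) (hb : Tendsto b l (𝓝 y)) (hc : Tendsto c l (𝓝 z))
    (hx : x ≠ 0) (hy : y ≠ 0) (hz : z ≠ 0) :
    Tendsto (fun i => acc m (a i) (b i) (c i)) l (𝓝 (acc m x y z)) := by
  have h1 := (ha.norm.inv₀ (norm_ne_zero_iff.mpr hx)).pow 3
  have h2 := (hb.norm.inv₀ (norm_ne_zero_iff.mpr hy)).pow 3
  have h3 := (hc.norm.inv₀ (norm_ne_zero_iff.mpr hz)).pow 3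
  exact (((h2.const_mul m).smul hb).add ((h3.const_mul m).smul hc)).sub
    ((h1.const_mul (2 * m)).smul ha)

theorem tendsto_dot {ι : Type} {l : Filter ι} {a b : ι → ℂ} {x y : ℂ}
    (ha : Tendsto a l (𝓝 x)) (hb : Tendsto b l (𝓝 y)) :
    Tendsto (fun i => dot (a i) (b i)) l (𝓝 (dot x y)) :=
  (((Complex.continuous_re.tendsto x).comp ha).mul ((Complex.continuous_re.tendsto y).comp hb)).add
    (((Complex.continuous_im.tendsto x).comp ha).mul ((Complex.continuous_im.tendsto y).comp hb))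

theorem tendsto_crs {ι : Type} {l : Filter ι} {a b : ι → ℂ} {x y : ℂ}
    (ha : Tendsto a l (𝓝 x)) (hb : Tendsto b l (𝓝 y)) :
    Tendsto (fun i => crs (a i) (b i)) l (𝓝 (crs x y)) :=
  (((Complex.continuous_re.tendsto x).comp ha).mul ((Complex.continuous_im.tendsto y).comp hb)).sub
    (((Complex.continuous_im.tendsto x).comp ha).mul ((Complex.continuous_re.tendsto y).comp hb))

theorem norm_term {k q : ℝ} (hk : 0 ≤ k) {a : ℂ} (ha : a ≠ 0) (hq : ‖a‖⁻¹ ≤ q) :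
    ‖(k * ‖a‖⁻¹ ^ 3) • a‖ ≤ k * q ^ 2 := by
  have hn : 0 < ‖a‖ := norm_pos_iff.mpr ha
  rw [norm_smul, Real.norm_of_nonneg (by positivity)]
  have e : k * ‖a‖⁻¹ ^ 3 * ‖a‖ = k * ‖a‖⁻¹ ^ 2 := by field_simp
  rw [e]
  exact mul_le_mul_of_nonneg_left (pow_le_pow_left₀ (by positivity) hq 2) hk

theorem norm_acc {m q : ℝ} (hm : 0 ≤ m) {a b c : ℂ} (ha : a ≠ 0) (hb : b ≠ 0) (hc : c ≠ 0)
    (h1 : ‖a‖⁻¹ ≤ q) (h2 : ‖b‖⁻¹ ≤ q) (h3 : ‖c‖⁻¹ ≤ q) : ‖acc m a b c‖ ≤ 4 * m * q ^ 2 := by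
  have a1 := norm_term (k := 2 * m) (by positivity) ha h1
  have a2 := norm_term hm hb h2
  have a3 := norm_term hm hc h3
  have a4 := norm_sub_le ((m * ‖b‖⁻¹ ^ 3) • b + (m * ‖c‖⁻¹ ^ 3) • c) ((2 * m * ‖a‖⁻¹ ^ 3) • a)
  have a5 := norm_add_le ((m * ‖b‖⁻¹ ^ 3) • b) ((m * ‖c‖⁻¹ ^ 3) • c)
  unfold acc
  linarith

theorem gap (m h : ℝ) (hm : 0 < m) (hh : 0 < h) : ∃ η : ℝ, 0 < η ∧
    ∀ d1 d2 d3 e1 e2 e3 : ℝ → ℂ, Sol m h d1 d2 d3 e1 e2 e3 →
      ¬ ∀ t, |m * (‖d1 t‖⁻¹ + ‖d2 t‖⁻¹ + ‖d3 t‖⁻¹) - 2 * h| < η := by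
  by_contra hc
  push Not at hc
  have ex : ∀ n : ℕ, ∃ d1 d2 d3 e1 e2 e3 : ℝ → ℂ, Sol m h d1 d2 d3 e1 e2 e3 ∧
      (∀ t, |m * (‖d1 t‖⁻¹ + ‖d2 t‖⁻¹ + ‖d3 t‖⁻¹) - 2 * h| < min h (1 / ((n : ℝ) + 1))) ∧
      ‖d1 0‖ ^ 2 + ‖d2 0‖ ^ 2 + ‖d3 0‖ ^ 2 ≤ CC m h := by
    intro n
    obtain ⟨d1, d2, d3, e1, e2, e3, H, hW⟩ := hc (min h (1 / ((n : ℝ) + 1)))
      (lt_min hh (by positivity))
    have b := fun t => abs_lt.mp ((hW t).trans_le (min_le_left _ _))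
    obtain ⟨s, hs⟩ := H.far hm hh (fun t => by linarith [(b t).1]) (fun t => by linarith [(b t).2])
    exact ⟨_, _, _, _, _, _, H.shift s, fun t => hW _, by simpa using hs⟩
  choose d1 d2 d3 e1 e2 e3 H hW hS using ex
  have b := fun n t => abs_lt.mp ((hW n t).trans_le (min_le_left _ _))
  have hpos : ∀ n t, 0 < ‖d1 n t‖⁻¹ ∧ 0 < ‖d2 n t‖⁻¹ ∧ 0 < ‖d3 n t‖⁻¹ := fun n t =>
    ⟨inv_pos.mpr (norm_pos_iff.mpr ((H n).n1 t)), inv_pos.mpr (norm_pos_iff.mpr ((H n).n2 t)),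
      inv_pos.mpr (norm_pos_iff.mpr ((H n).n3 t))⟩
  have hq : ∀ n t, ‖d1 n t‖⁻¹ ≤ 3 * h / m ∧ ‖d2 n t‖⁻¹ ≤ 3 * h / m ∧ ‖d3 n t‖⁻¹ ≤ 3 * h / m := by
    intro n t
    obtain ⟨p1, p2, p3⟩ := hpos n t
    have := (b n t).2
    have q1 := mul_pos hm p1
    have q2 := mul_pos hm p2
    have q3 := mul_pos hm p3
    refine ⟨?_, ?_, ?_⟩ <;> rw [le_div_iff₀ hm] <;> linarith
  have he : ∀ n t, ‖e1 n t‖ ≤ 1 + 12 * h ∧ ‖e2 n t‖ ≤ 1 + 12 * h ∧ ‖e3 n t‖ ≤ 1 + 12 * h := by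
    intro n t
    have := (H n).en t
    rw [dot_self, dot_self, dot_self] at this
    have := (b n t).2
    refine ⟨?_, ?_, ?_⟩ <;>
      nlinarith [sq_nonneg (‖e1 n t‖ - 1), sq_nonneg (‖e2 n t‖ - 1), sq_nonneg (‖e3 n t‖ - 1),
        sq_nonneg ‖e1 n t‖, sq_nonneg ‖e2 n t‖, sq_nonneg ‖e3 n t‖]
  have hr0 : 0 < (3 * h / m)⁻¹ := by positivity
  have low : ∀ z : ℂ, z ≠ 0 → ‖z‖⁻¹ ≤ 3 * h / m → (3 * h / m)⁻¹ ≤ ‖z‖ := fun z hz hz' =>
    inv_le_of_inv_le₀ (norm_pos_iff.mpr hz) hz'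
  have nz : ∀ z : ℂ, (3 * h / m)⁻¹ ≤ ‖z‖ → z ≠ 0 := fun z hz =>
    norm_pos_iff.mp (hr0.trans_le hz)
  let K : Set PS := {x | (3 * h / m)⁻¹ ≤ ‖x.1‖ ∧ (3 * h / m)⁻¹ ≤ ‖x.2.1‖ ∧
    (3 * h / m)⁻¹ ≤ ‖x.2.2.1‖}
  have hK : IsClosed K := by
    have k1 : IsClosed {x : PS | (3 * h / m)⁻¹ ≤ ‖x.1‖} :=
      isClosed_le continuous_const (by fun_prop)
    have k2 : IsClosed {x : PS | (3 * h / m)⁻¹ ≤ ‖x.2.1‖} :=
      isClosed_le continuous_const (by fun_prop)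
    have k3 : IsClosed {x : PS | (3 * h / m)⁻¹ ≤ ‖x.2.2.1‖} :=
      isClosed_le continuous_const (by fun_prop)
    exact k1.inter (k2.inter k3)
  have hyK : ∀ n t, ((d1 n t, d2 n t, d3 n t, e1 n t, e2 n t, e3 n t) : PS) ∈ K := fun n t =>
    ⟨low _ ((H n).n1 t) (hq n t).1, low _ ((H n).n2 t) (hq n t).2.1,
      low _ ((H n).n3 t) (hq n t).2.2⟩
  have hCC : 0 ≤ CC m h := by unfold CC; positivity
  obtain ⟨z, hz, hl⟩ := limit_sol (Phi m) K hK (by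
      intro x hx
      have t1 : Tendsto (fun x : PS => x.1) (𝓝 x) (𝓝 x.1) := continuousAt_fst
      have t2 : Tendsto (fun x : PS => x.2.1) (𝓝 x) (𝓝 x.2.1) :=
        (by fun_prop : ContinuousAt (fun x : PS => x.2.1) x)
      have t3 : Tendsto (fun x : PS => x.2.2.1) (𝓝 x) (𝓝 x.2.2.1) :=
        (by fun_prop : ContinuousAt (fun x : PS => x.2.2.1) x)
      have n1 := nz _ hx.1
      have n2 := nz _ hx.2.1
      have n3 := nz _ hx.2.2
      exact ContinuousAt.prodMk (by fun_prop) (ContinuousAt.prodMk (by fun_prop)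
        (ContinuousAt.prodMk (by fun_prop) (ContinuousAt.prodMk (tendsto_acc m t1 t2 t3 n1 n2 n3)
          (ContinuousAt.prodMk (tendsto_acc m t2 t3 t1 n2 n3 n1)
            (tendsto_acc m t3 t1 t2 n3 n1 n2))))))
    (fun n t => (d1 n t, d2 n t, d3 n t, e1 n t, e2 n t, e3 n t))
    (fun n t => ((H n).hd1 t).prodMk (((H n).hd2 t).prodMk (((H n).hd3 t).prodMk
      (((H n).he1 t).prodMk (((H n).he2 t).prodMk ((H n).he3 t)))))) hyK
    (1 + 12 * h + 4 * m * (3 * h / m) ^ 2) (1 + 12 * h + CC m h)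
    (by
      intro n t
      obtain ⟨a1, a2, a3⟩ := he n t
      obtain ⟨q1, q2, q3⟩ := hq n t
      have c1 := norm_acc hm.le ((H n).n1 t) ((H n).n2 t) ((H n).n3 t) q1 q2 q3
      have c2 := norm_acc hm.le ((H n).n2 t) ((H n).n3 t) ((H n).n1 t) q2 q3 q1
      have c3 := norm_acc hm.le ((H n).n3 t) ((H n).n1 t) ((H n).n2 t) q3 q1 q2
      have p : 0 ≤ 4 * m * (3 * h / m) ^ 2 := by positivity
      simp only [Phi, norm_prod_le_iff]
      refine ⟨?_, ?_, ?_, ?_, ?_, ?_⟩ <;> linarith)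
    (by
      intro n
      obtain ⟨a1, a2, a3⟩ := he n 0
      have := hS n
      simp only [norm_prod_le_iff]
      refine ⟨?_, ?_, ?_, by linarith, by linarith, by linarith⟩ <;>
        nlinarith [sq_nonneg (‖d1 n 0‖ - 1), sq_nonneg (‖d2 n 0‖ - 1), sq_nonneg (‖d3 n 0‖ - 1),
          sq_nonneg ‖d1 n 0‖, sq_nonneg ‖d2 n 0‖, sq_nonneg ‖d3 n 0‖])
  have hzK : ∀ t, z t ∈ K := fun t =>
    hK.mem_of_tendsto (hl t) (Eventually.of_forall fun n => hyK n t)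
  have l1 : ∀ t, Tendsto (fun n => d1 n t) (hyperfilter ℕ) (𝓝 (z t).1) := fun t => (hl t).fst_nhds
  have l2 : ∀ t, Tendsto (fun n => d2 n t) (hyperfilter ℕ) (𝓝 (z t).2.1) :=
    fun t => (hl t).snd_nhds.fst_nhds
  have l3 : ∀ t, Tendsto (fun n => d3 n t) (hyperfilter ℕ) (𝓝 (z t).2.2.1) :=
    fun t => (hl t).snd_nhds.snd_nhds.fst_nhds
  have l4 : ∀ t, Tendsto (fun n => e1 n t) (hyperfilter ℕ) (𝓝 (z t).2.2.2.1) :=
    fun t => (hl t).snd_nhds.snd_nhds.snd_nhds.fst_nhds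
  have l5 : ∀ t, Tendsto (fun n => e2 n t) (hyperfilter ℕ) (𝓝 (z t).2.2.2.2.1) :=
    fun t => (hl t).snd_nhds.snd_nhds.snd_nhds.snd_nhds.fst_nhds
  have l6 : ∀ t, Tendsto (fun n => e3 n t) (hyperfilter ℕ) (𝓝 (z t).2.2.2.2.2) :=
    fun t => (hl t).snd_nhds.snd_nhds.snd_nhds.snd_nhds.snd_nhds
  have lW : ∀ t, Tendsto (fun n => m * (‖d1 n t‖⁻¹ + ‖d2 n t‖⁻¹ + ‖d3 n t‖⁻¹)) (hyperfilter ℕ)
      (𝓝 (m * (‖(z t).1‖⁻¹ + ‖(z t).2.1‖⁻¹ + ‖(z t).2.2.1‖⁻¹))) := fun t =>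
    ((((l1 t).norm.inv₀ (norm_ne_zero_iff.mpr (nz _ (hzK t).1))).add
      ((l2 t).norm.inv₀ (norm_ne_zero_iff.mpr (nz _ (hzK t).2.1)))).add
      ((l3 t).norm.inv₀ (norm_ne_zero_iff.mpr (nz _ (hzK t).2.2)))).const_mul m
  have HZ : Sol m h (fun t => (z t).1) (fun t => (z t).2.1) (fun t => (z t).2.2.1)
      (fun t => (z t).2.2.2.1) (fun t => (z t).2.2.2.2.1) (fun t => (z t).2.2.2.2.2) :=
    { hd1 := fun t => hd_fst (hz t)
      hd2 := fun t => hd_fst (hd_snd (hz t))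
      hd3 := fun t => hd_fst (hd_snd (hd_snd (hz t)))
      he1 := fun t => hd_fst (hd_snd (hd_snd (hd_snd (hz t))))
      he2 := fun t => hd_fst (hd_snd (hd_snd (hd_snd (hd_snd (hz t)))))
      he3 := fun t => hd_snd (hd_snd (hd_snd (hd_snd (hd_snd (hz t)))))
      sd := fun t => tendsto_nhds_unique (((l1 t).add (l2 t)).add (l3 t))
        (tendsto_const_nhds.congr fun n => ((H n).sd t).symm)
      se := fun t => tendsto_nhds_unique (((l4 t).add (l5 t)).add (l6 t))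
        (tendsto_const_nhds.congr fun n => ((H n).se t).symm)
      n1 := fun t => nz _ (hzK t).1
      n2 := fun t => nz _ (hzK t).2.1
      n3 := fun t => nz _ (hzK t).2.2
      en := fun t => tendsto_nhds_unique (((tendsto_dot (l4 t) (l4 t)).add
          (tendsto_dot (l5 t) (l5 t))).add (tendsto_dot (l6 t) (l6 t)))
        ((((lW t).sub_const h).const_mul 6).congr fun n => ((H n).en t).symm)
      am := fun t => tendsto_nhds_unique (((tendsto_crs (l1 t) (l4 t)).add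
          (tendsto_crs (l2 t) (l5 t))).add (tendsto_crs (l3 t) (l6 t)))
        (tendsto_const_nhds.congr fun n => ((H n).am t).symm) }
  refine HZ.saari hm fun t => ?_
  have t0 : Tendsto (fun n : ℕ => 1 / ((n : ℝ) + 1)) (hyperfilter ℕ) (𝓝 0) :=
    tendsto_one_div_add_atTop_nhds_zero_nat.mono_left (Nat.hyperfilter_le_atTop)
  have := le_of_tendsto_of_tendsto' (((lW t).sub_const (2 * h)).abs) t0
    (fun n => ((hW n t).trans_le (min_le_right _ _)).le)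
  have := abs_nonpos_iff.mp this
  linarith

theorem en_aux {a b c : ℂ} (hs : a + b + c = 0) :
    dot (b - a) (b - a) + dot (c - b) (c - b) + dot (a - c) (a - c) =
      3 * (‖a‖ ^ 2 + ‖b‖ ^ 2 + ‖c‖ ^ 2) := by
  obtain ⟨h1, h2⟩ := third hs
  simp only [← dot_self, dot, Complex.sub_re, Complex.sub_im, h1, h2]
  ring

theorem am_aux {a b c u v w : ℂ} (hs : a + b + c = 0) (hv : u + v + w = 0) :
    crs (b - a) (v - u) + crs (c - b) (w - v) + crs (a - c) (u - w) =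
      3 * (((starRingEnd ℂ) a * u).im + ((starRingEnd ℂ) b * v).im +
        ((starRingEnd ℂ) c * w).im) := by
  obtain ⟨h1, h2⟩ := third hs
  obtain ⟨h3, h4⟩ := third hv
  simp only [crs, Complex.sub_re, Complex.sub_im, Complex.mul_im, Complex.conj_re,
    Complex.conj_im, h1, h2, h3, h4]
  ring

theorem acc_aux {m : ℝ} (hm : 0 < m) {a b c x y : ℂ}
    (hx : m • x = (m * m / ‖b - a‖ ^ 3) • (b - a) + (m * m / ‖c - a‖ ^ 3) • (c - a))
    (hy : m • y = (m * m / ‖a - b‖ ^ 3) • (a - b) + (m * m / ‖c - b‖ ^ 3) • (c - b)) :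
    y - x = acc m (b - a) (c - b) (a - c) := by
  apply smul_right_injective ℂ hm.ne'
  show m • (y - x) = m • acc m (b - a) (c - b) (a - c)
  rw [smul_sub, hx, hy, acc, norm_sub_rev a b, norm_sub_rev c a]
  simp only [div_eq_mul_inv, ← inv_pow]
  module

theorem virial (m : ℝ) (hm : 0 < m) (E : ℝ) (hE : 0 < E) : ∃ ε : ℝ, 0 < ε ∧
      ∀ q : ℝ → Fin 3 → ℂ,
        (∀ i, ContDiff ℝ 2 (fun s => q s i)) →
        (∀ t : ℝ, ∀ i j : Fin 3, i ≠ j → q t i ≠ q t j) →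
        (∀ t : ℝ, ∑ i, q t i = 0) →
        (∀ t : ℝ, ∀ i : Fin 3,
          m • deriv (deriv (fun s => q s i)) t =
            ∑ j ∈ Finset.univ.erase i,
              (m * m / ‖q t j - q t i‖ ^ 3) • (q t j - q t i)) →
        (∀ t : ℝ, (1 / 2 : ℝ) * ∑ i, m * ‖deriv (fun s => q s i) t‖ ^ 2
            - ∑ i, ∑ j ∈ Finset.Ioi i, m * m / ‖q t i - q t j‖ = -E) →
        (∀ t : ℝ, ∑ i, m * ((starRingEnd ℂ) (q t i) * deriv (fun s => q s i) t).im = 0) →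
        ¬ (∀ t : ℝ,
            2 * (E - ε) < ∑ i, ∑ j ∈ Finset.Ioi i, m * m / ‖q t i - q t j‖ ∧
            ∑ i, ∑ j ∈ Finset.Ioi i, m * m / ‖q t i - q t j‖ < 2 * (E + ε)) := by
  obtain ⟨η, hη, hgap⟩ := gap m (E / m) hm (by positivity)
  refine ⟨m * η / 2, by positivity, fun q hq hne hcm hode hen ham hU => ?_⟩
  have hv : ∀ i t, HasDerivAt (fun s => q s i) (deriv (fun s => q s i) t) t := fun i t =>
    ((hq i).differentiable (by norm_num) t).hasDerivAt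
  have ha : ∀ i t, HasDerivAt (deriv (fun s => q s i)) (deriv (deriv (fun s => q s i)) t) t :=
    fun i t => ((hq i).differentiable_deriv_two t).hasDerivAt
  have hU' : ∀ t, ∑ i, ∑ j ∈ Finset.Ioi i, m * m / ‖q t i - q t j‖ =
      m * (m * (‖q t 1 - q t 0‖⁻¹ + ‖q t 2 - q t 1‖⁻¹ + ‖q t 0 - q t 2‖⁻¹)) := by
    intro t
    have i0 : Finset.Ioi (0 : Fin 3) = {1, 2} := by decide
    have i1 : Finset.Ioi (1 : Fin 3) = {2} := by decide
    have i2 : Finset.Ioi (2 : Fin 3) = ∅ := by decide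
    rw [Fin.sum_univ_three, i0, i1, i2, Finset.sum_pair (by decide), Finset.sum_singleton,
      Finset.sum_empty, norm_sub_rev (q t 1) (q t 0), norm_sub_rev (q t 2) (q t 1)]
    ring
  have hcm' : ∀ t, q t 0 + q t 1 + q t 2 = 0 := fun t => by
    rw [← hcm t, Fin.sum_univ_three]
  have hcv : ∀ t, deriv (fun s => q s 0) t + deriv (fun s => q s 1) t +
      deriv (fun s => q s 2) t = 0 := by
    intro t
    have h1 := ((hv 0 t).add (hv 1 t)).add (hv 2 t)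
    have h2 : ((fun s => q s 0) + (fun s => q s 1) + fun s => q s 2) = fun _ => 0 := funext hcm'
    rw [h2] at h1
    exact h1.unique (hasDerivAt_const t 0)
  have o0 := fun t => hode t 0
  have o1 := fun t => hode t 1
  have o2 := fun t => hode t 2
  have j0 : Finset.univ.erase (0 : Fin 3) = {1, 2} := by decide
  have j1 : Finset.univ.erase (1 : Fin 3) = {0, 2} := by decide
  have j2 : Finset.univ.erase (2 : Fin 3) = {0, 1} := by decide
  simp only [j0, Finset.sum_pair (show (1 : Fin 3) ≠ 2 by decide)] at o0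
  simp only [j1, Finset.sum_pair (show (0 : Fin 3) ≠ 2 by decide)] at o1
  simp only [j2, Finset.sum_pair (show (0 : Fin 3) ≠ 1 by decide)] at o2
  refine hgap (fun t => q t 1 - q t 0) (fun t => q t 2 - q t 1) (fun t => q t 0 - q t 2)
    (fun t => deriv (fun s => q s 1) t - deriv (fun s => q s 0) t)
    (fun t => deriv (fun s => q s 2) t - deriv (fun s => q s 1) t)
    (fun t => deriv (fun s => q s 0) t - deriv (fun s => q s 2) t)
    { hd1 := fun t => (hv 1 t).sub (hv 0 t)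
      hd2 := fun t => (hv 2 t).sub (hv 1 t)
      hd3 := fun t => (hv 0 t).sub (hv 2 t)
      he1 := fun t => ((ha 1 t).sub (ha 0 t)).congr_deriv (acc_aux hm (o0 t) (o1 t))
      he2 := fun t => ((ha 2 t).sub (ha 1 t)).congr_deriv
        (acc_aux hm (by rw [o1 t, add_comm]) (by rw [o2 t, add_comm]))
      he3 := fun t => ((ha 0 t).sub (ha 2 t)).congr_deriv
        (acc_aux hm (o2 t) (by rw [o0 t, add_comm]))
      sd := fun t => by ring
      se := fun t => by ring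
      n1 := fun t => sub_ne_zero.mpr (hne t 1 0 (by decide))
      n2 := fun t => sub_ne_zero.mpr (hne t 2 1 (by decide))
      n3 := fun t => sub_ne_zero.mpr (hne t 0 2 (by decide))
      en := fun t => by
        have h1 := hen t
        rw [hU' t, Fin.sum_univ_three] at h1
        rw [en_aux (hcv t)]
        field_simp
        field_simp at h1
        linear_combination 3 * h1
      am := fun t => by
        have h1 := ham t
        rw [Fin.sum_univ_three, ← mul_add, ← mul_add] at h1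
        rw [am_aux (hcm' t) (hcv t), (mul_eq_zero.mp h1).resolve_left hm.ne', mul_zero] }
    fun t => ?_
  have h1 := hU t
  rw [hU' t] at h1
  have e : E = m * (E / m) := by field_simp
  rw [abs_lt]
  constructor
  · apply lt_of_mul_lt_mul_left _ hm.le
    nlinarith [h1.1]
  · apply lt_of_mul_lt_mul_left _ hm.le
    nlinarith [h1.2]

end Pool.Agent.H376Z.TB
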