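import Pool.Agent.H376Z.TB.Core

/-!
Three-body problem, equal masses, in the differences of the positions. No solution with zero
angular momentum has a constant potential equal to the virial value.
-/

set_option autoImplicit false

namespace Pool.Agent.H376Z.TB

def dot (z w : ℂ) : ℝ := z.re * w.re + z.im * w.im

def crs (z w : ℂ) : ℝ := z.re * w.im - z.im * w.re

noncomputable def acc (m : ℝ) (a b c : ℂ) : ℂ :=
  (m * ‖b‖⁻¹ ^ 3) • b + (m * ‖c‖⁻¹ ^ 3) • c - (2 * m * ‖a‖⁻¹ ^ 3) • a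

theorem acc_re (m : ℝ) (a b c : ℂ) : (acc m a b c).re =
    m * ‖b‖⁻¹ ^ 3 * b.re + m * ‖c‖⁻¹ ^ 3 * c.re - 2 * m * ‖a‖⁻¹ ^ 3 * a.re := by
  simp only [acc, Complex.sub_re, Complex.add_re, Complex.smul_re, smul_eq_mul]

theorem acc_im (m : ℝ) (a b c : ℂ) : (acc m a b c).im =
    m * ‖b‖⁻¹ ^ 3 * b.im + m * ‖c‖⁻¹ ^ 3 * c.im - 2 * m * ‖a‖⁻¹ ^ 3 * a.im := by
  simp only [acc, Complex.sub_im, Complex.add_im, Complex.smul_im, smul_eq_mul]

theorem dot_self (z : ℂ) : dot z z = ‖z‖ ^ 2 := by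
  rw [Complex.sq_norm, Complex.normSq_apply]; rfl

theorem hd_re {f : ℝ → ℂ} {f' : ℂ} {t : ℝ} (h : HasDerivAt f f' t) :
    HasDerivAt (fun t => (f t).re) f'.re t :=
  Complex.reCLM.hasFDerivAt.comp_hasDerivAt t h

theorem hd_im {f : ℝ → ℂ} {f' : ℂ} {t : ℝ} (h : HasDerivAt f f' t) :
    HasDerivAt (fun t => (f t).im) f'.im t :=
  Complex.imCLM.hasFDerivAt.comp_hasDerivAt t h

theorem hd_dot {f g : ℝ → ℂ} {f' g' : ℂ} {t : ℝ} (hf : HasDerivAt f f' t)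
    (hg : HasDerivAt g g' t) :
    HasDerivAt (fun t => dot (f t) (g t)) (dot f' (g t) + dot (f t) g') t :=
  (((hd_re hf).mul (hd_re hg)).add ((hd_im hf).mul (hd_im hg))).congr_deriv (by
    simp only [dot]; ring)

theorem hd_crs {f g : ℝ → ℂ} {f' g' : ℂ} {t : ℝ} (hf : HasDerivAt f f' t)
    (hg : HasDerivAt g g' t) :
    HasDerivAt (fun t => crs (f t) (g t)) (crs f' (g t) + crs (f t) g') t :=
  (((hd_re hf).mul (hd_im hg)).sub ((hd_im hf).mul (hd_re hg))).congr_deriv (by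
    simp only [crs]; ring)

theorem hd_norm {f : ℝ → ℂ} {f' : ℂ} {t : ℝ} (hf : HasDerivAt f f' t) (h0 : f t ≠ 0) :
    HasDerivAt (fun t => ‖f t‖) (dot (f t) f' / ‖f t‖) t := by
  have h1 := hd_dot hf hf
  have hn : 0 < ‖f t‖ := norm_pos_iff.mpr h0
  have h2 := h1.sqrt (by rw [dot_self]; positivity)
  have h3 : (fun t => √(dot (f t) (f t))) = fun t => ‖f t‖ := by
    funext t; rw [dot_self, Real.sqrt_sq (norm_nonneg _)]
  rw [h3] at h2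
  refine h2.congr_deriv ?_
  rw [dot_self, Real.sqrt_sq (norm_nonneg _)]
  field_simp
  simp only [dot]; ring

theorem hd_inv {f : ℝ → ℂ} {f' : ℂ} {t : ℝ} (hf : HasDerivAt f f' t) (h0 : f t ≠ 0) :
    HasDerivAt (fun t => ‖f t‖⁻¹) (-1 / 2 * (‖f t‖⁻¹ ^ 3 * (2 * dot (f t) f'))) t := by
  have hn : 0 < ‖f t‖ := norm_pos_iff.mpr h0
  refine ((hd_norm hf h0).inv hn.ne').congr_deriv ?_
  field_simp

/-- a solution, in the differences of the positions, with zero angular momentum -/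
structure Sol (m h : ℝ) (d1 d2 d3 e1 e2 e3 : ℝ → ℂ) : Prop where
  hd1 : ∀ t, HasDerivAt d1 (e1 t) t
  hd2 : ∀ t, HasDerivAt d2 (e2 t) t
  hd3 : ∀ t, HasDerivAt d3 (e3 t) t
  he1 : ∀ t, HasDerivAt e1 (acc m (d1 t) (d2 t) (d3 t)) t
  he2 : ∀ t, HasDerivAt e2 (acc m (d2 t) (d3 t) (d1 t)) t
  he3 : ∀ t, HasDerivAt e3 (acc m (d3 t) (d1 t) (d2 t)) t
  sd : ∀ t, d1 t + d2 t + d3 t = 0
  se : ∀ t, e1 t + e2 t + e3 t = 0
  n1 : ∀ t, d1 t ≠ 0
  n2 : ∀ t, d2 t ≠ 0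
  n3 : ∀ t, d3 t ≠ 0
  en : ∀ t, dot (e1 t) (e1 t) + dot (e2 t) (e2 t) + dot (e3 t) (e3 t) =
    6 * (m * (‖d1 t‖⁻¹ + ‖d2 t‖⁻¹ + ‖d3 t‖⁻¹) - h)
  am : ∀ t, crs (d1 t) (e1 t) + crs (d2 t) (e2 t) + crs (d3 t) (e3 t) = 0

variable {m h : ℝ} {d1 d2 d3 e1 e2 e3 : ℝ → ℂ}

theorem Sol.cyc (H : Sol m h d1 d2 d3 e1 e2 e3) : Sol m h d2 d3 d1 e2 e3 e1 where
  hd1 := H.hd2
  hd2 := H.hd3
  hd3 := H.hd1
  he1 := H.he2
  he2 := H.he3
  he3 := H.he1
  sd t := by rw [← H.sd t]; ring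
  se t := by rw [← H.se t]; ring
  n1 := H.n2
  n2 := H.n3
  n3 := H.n1
  en t := by have := H.en t; linarith
  am t := by have := H.am t; linarith

theorem Sol.shift (H : Sol m h d1 d2 d3 e1 e2 e3) (s : ℝ) :
    Sol m h (fun t => d1 (t + s)) (fun t => d2 (t + s)) (fun t => d3 (t + s))
      (fun t => e1 (t + s)) (fun t => e2 (t + s)) (fun t => e3 (t + s)) where
  hd1 t := (H.hd1 (t + s)).comp_add_const t s
  hd2 t := (H.hd2 (t + s)).comp_add_const t s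
  hd3 t := (H.hd3 (t + s)).comp_add_const t s
  he1 t := (H.he1 (t + s)).comp_add_const t s
  he2 t := (H.he2 (t + s)).comp_add_const t s
  he3 t := (H.he3 (t + s)).comp_add_const t s
  sd t := H.sd _
  se t := H.se _
  n1 t := H.n1 _
  n2 t := H.n2 _
  n3 t := H.n3 _
  en t := H.en _
  am t := H.am _

theorem inv_sq_mul {z : ℂ} (hz : z ≠ 0) : ‖z‖⁻¹ ^ 2 * dot z z = 1 := by
  have hn : 0 < ‖z‖ := norm_pos_iff.mpr hz
  rw [dot_self]; field_simp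

theorem third {a b c : ℂ} (hs : a + b + c = 0) : c.re = -a.re - b.re ∧ c.im = -a.im - b.im := by
  have h1 := congrArg Complex.re hs
  have h2 := congrArg Complex.im hs
  simp only [Complex.add_re, Complex.add_im, Complex.zero_re, Complex.zero_im] at h1 h2
  constructor <;> linarith

theorem dot_acc (m : ℝ) {a b c : ℂ} (hs : a + b + c = 0) (ha : a ≠ 0) :
    2 * dot a (acc m a b c) = m * (-4 * ‖a‖⁻¹ +
      ‖b‖⁻¹ ^ 3 * (2 * dot c c - (dot a a + dot b b + dot c c)) +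
      ‖c‖⁻¹ ^ 3 * (2 * dot b b - (dot a a + dot b b + dot c c))) := by
  obtain ⟨h1, h2⟩ := third hs
  have h3 := inv_sq_mul ha
  simp only [dot, acc_re, acc_im, h1, h2] at h3 ⊢
  linear_combination (-4 * m * ‖a‖⁻¹) * h3

theorem lagr {a b c u v w : ℂ} (hs : a + b + c = 0) (hv : u + v + w = 0)
    (k1 : dot a u + dot b v + dot c w = 0) (k2 : crs a u + crs b v + crs c w = 0) :
    3 * (dot a a + dot b b + dot c c) * dot u u =
      (dot u u + dot v v + dot w w) * (2 * (dot a a + dot b b + dot c c) - 3 * dot a a) := by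
  obtain ⟨h1, h2⟩ := third hs
  obtain ⟨h3, h4⟩ := third hv
  simp only [dot, crs, h1, h2, h3, h4] at k1 k2 ⊢
  linear_combination
    (3 * (a.re * u.re + a.im * u.im) - ((a.re + 2 * b.re) * (u.re + 2 * v.re) +
      (a.im + 2 * b.im) * (u.im + 2 * v.im))) * k1 +
    (3 * (a.re * u.im - a.im * u.re) - ((a.re + 2 * b.re) * (u.im + 2 * v.im) -
      (a.im + 2 * b.im) * (u.re + 2 * v.re))) * k2

theorem lagr2 {a b c u v w : ℂ} (hs : a + b + c = 0) (hv : u + v + w = 0)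
    (k1 : dot a u + dot b v + dot c w = 0) (k2 : crs a u + crs b v + crs c w = 0) :
    (dot a a + dot b b + dot c c) * crs u v = -(dot u u + dot v v + dot w w) * crs a b := by
  obtain ⟨h1, h2⟩ := third hs
  obtain ⟨h3, h4⟩ := third hv
  simp only [dot, crs, h1, h2, h3, h4] at k1 k2 ⊢
  linear_combination
    ((a.re * v.im - a.im * v.re) - (b.re * u.im - b.im * u.re)) * k1 +
    ((b.re * u.re + b.im * u.im) - (a.re * v.re + a.im * v.im)) * k2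

theorem crs_acc (m : ℝ) {a b c : ℂ} (hs : a + b + c = 0) :
    crs (acc m a b c) b + crs a (acc m b c a) =
      -(2 * m * (‖a‖⁻¹ ^ 3 + ‖b‖⁻¹ ^ 3 + ‖c‖⁻¹ ^ 3)) * crs a b := by
  obtain ⟨h1, h2⟩ := third hs
  simp only [crs, acc_re, acc_im, h1, h2]
  ring

theorem collinear {a b c : ℂ} (hs : a + b + c = 0) (h0 : crs a b = 0) :
    ‖c‖ = ‖a‖ + ‖b‖ ∨ ‖a‖ = ‖b‖ + ‖c‖ ∨ ‖b‖ = ‖c‖ + ‖a‖ := by
  obtain ⟨h1, h2⟩ := third hs
  have ea := dot_self a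
  have eb := dot_self b
  have ec := dot_self c
  have key : (‖a‖ + ‖b‖ + ‖c‖) * ((‖a‖ + ‖b‖ - ‖c‖) * ((‖b‖ + ‖c‖ - ‖a‖) * (‖c‖ + ‖a‖ - ‖b‖))) =
      4 * crs a b ^ 2 := by
    have : (‖a‖ + ‖b‖ + ‖c‖) * ((‖a‖ + ‖b‖ - ‖c‖) * ((‖b‖ + ‖c‖ - ‖a‖) * (‖c‖ + ‖a‖ - ‖b‖))) =
        4 * ‖a‖ ^ 2 * ‖b‖ ^ 2 - (‖c‖ ^ 2 - ‖a‖ ^ 2 - ‖b‖ ^ 2) ^ 2 := by ring
    rw [this, ← ea, ← eb, ← ec]
    simp only [dot, crs, h1, h2]
    ring
  rw [h0] at key
  have hz : (‖a‖ + ‖b‖ + ‖c‖) * ((‖a‖ + ‖b‖ - ‖c‖) * ((‖b‖ + ‖c‖ - ‖a‖) * (‖c‖ + ‖a‖ - ‖b‖))) = 0 := by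
    rw [key]; ring
  have pa := norm_nonneg a
  have pb := norm_nonneg b
  have pc := norm_nonneg c
  rcases mul_eq_zero.mp hz with h | h
  · left; linarith
  rcases mul_eq_zero.mp h with h | h
  · left; linarith
  rcases mul_eq_zero.mp h with h | h
  · right; left; linarith
  · right; right; linarith

theorem heron_deriv {a b c u v w : ℂ} (hs : a + b + c = 0) (hv : u + v + w = 0)
    (k1 : dot a u + dot b v + dot c w = 0) (h0 : crs a b = 0) :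
    dot a a * (2 * dot a u) + dot b b * (2 * dot b v) + dot c c * (2 * dot c w) = 0 := by
  obtain ⟨h1, h2⟩ := third hs
  obtain ⟨h3, h4⟩ := third hv
  simp only [dot, crs, h1, h2, h3, h4] at k1 h0 ⊢
  linear_combination
    (a.re * a.re + a.im * a.im + b.re * b.re + b.im * b.im +
      (a.re + b.re) * (a.re + b.re) + (a.im + b.im) * (a.im + b.im)) * k1 -
    2 * ((u.re * b.im - u.im * b.re) + (a.re * v.im - a.im * v.re)) * h0

theorem Sol.hs1 (H : Sol m h d1 d2 d3 e1 e2 e3) (t : ℝ) :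
    HasDerivAt (fun t => dot (d1 t) (d1 t)) (2 * dot (d1 t) (e1 t)) t :=
  (hd_dot (H.hd1 t) (H.hd1 t)).congr_deriv (by simp only [dot]; ring)

theorem Sol.hg1 (H : Sol m h d1 d2 d3 e1 e2 e3) (t : ℝ) :
    HasDerivAt (fun t => 2 * dot (d1 t) (e1 t))
      (2 * dot (e1 t) (e1 t) + 2 * dot (d1 t) (acc m (d1 t) (d2 t) (d3 t))) t :=
  ((hd_dot (H.hd1 t) (H.he1 t)).const_mul 2).congr_deriv (by ring)

/-- the moment of inertia is constant -/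
theorem Sol.inertia (H : Sol m h d1 d2 d3 e1 e2 e3)
    (hW : ∀ t, m * (‖d1 t‖⁻¹ + ‖d2 t‖⁻¹ + ‖d3 t‖⁻¹) = 2 * h) (t : ℝ) :
    dot (d1 t) (e1 t) + dot (d2 t) (e2 t) + dot (d3 t) (e3 t) = 0 := by
  have h1 := fun t => ((H.hs1 t).add (H.cyc.hs1 t)).add (H.cyc.cyc.hs1 t)
  have h2 := fun t => ((H.hg1 t).add (H.cyc.hg1 t)).add (H.cyc.cyc.hg1 t)
  have := concave_const h1 h2 (fun t => by
    rw [dot_acc m (H.sd t) (H.n1 t), dot_acc m (H.cyc.sd t) (H.n2 t),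
      dot_acc m (H.cyc.cyc.sd t) (H.n3 t)]
    have i1 := inv_sq_mul (H.n1 t)
    have i2 := inv_sq_mul (H.n2 t)
    have i3 := inv_sq_mul (H.n3 t)
    apply le_of_eq
    linear_combination 2 * H.en t + 6 * hW t - 2 * m * ‖d1 t‖⁻¹ * i1 - 2 * m * ‖d2 t‖⁻¹ * i2 -
      2 * m * ‖d3 t‖⁻¹ * i3) (fun t => by
    simp only [Pi.add_apply, dot_self]; positivity) t
  linarith

theorem Sol.hg1' (H : Sol m h d1 d2 d3 e1 e2 e3)
    (hW : ∀ t, m * (‖d1 t‖⁻¹ + ‖d2 t‖⁻¹ + ‖d3 t‖⁻¹) = 2 * h) (S : ℝ) (hS0 : 0 < S)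
    (hS : ∀ t, dot (d1 t) (d1 t) + dot (d2 t) (d2 t) + dot (d3 t) (d3 t) = S) (t : ℝ) :
    HasDerivAt (fun t => 2 * dot (d1 t) (e1 t))
      (FF m (4 * h / S) S ‖d1 t‖⁻¹ ‖d2 t‖⁻¹ ‖d3 t‖⁻¹ (dot (d1 t) (d1 t)) (dot (d2 t) (d2 t))
        (dot (d3 t) (d3 t))) t := by
  refine (H.hg1 t).congr_deriv ?_
  rw [dot_acc m (H.sd t) (H.n1 t), hS t, FF]
  congr 1
  have h1 := lagr (H.sd t) (H.se t) (H.inertia hW t) (H.am t)
  rw [H.en t, hW t, hS t] at h1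
  field_simp
  linear_combination (2 / 3) * h1

theorem Sol.no_coll (H : Sol m h d1 d2 d3 e1 e2 e3) (hm : 0 < m)
    (hW : ∀ t, m * (‖d1 t‖⁻¹ + ‖d2 t‖⁻¹ + ‖d3 t‖⁻¹) = 2 * h) (S : ℝ) (hS0 : 0 < S)
    (hS : ∀ t, dot (d1 t) (d1 t) + dot (d2 t) (d2 t) + dot (d3 t) (d3 t) = S) (t : ℝ)
    (h0 : crs (d1 t) (d2 t) = 0) (h1 : ‖d3 t‖ = ‖d1 t‖ + ‖d2 t‖) : False := by
  refine core m (4 * h / S) S (2 * h / m) hm (fun t => ‖d1 t‖⁻¹) (fun t => ‖d2 t‖⁻¹)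
    (fun t => ‖d3 t‖⁻¹) (fun t => dot (d1 t) (d1 t)) (fun t => dot (d2 t) (d2 t))
    (fun t => dot (d3 t) (d3 t)) (fun t => 2 * dot (d1 t) (e1 t))
    (fun t => 2 * dot (d2 t) (e2 t)) (fun t => 2 * dot (d3 t) (e3 t))
    (fun t => hd_inv (H.hd1 t) (H.n1 t)) (fun t => hd_inv (H.hd2 t) (H.n2 t))
    (fun t => hd_inv (H.hd3 t) (H.n3 t)) H.hs1 H.cyc.hs1 H.cyc.cyc.hs1
    (H.hg1' hW S hS0 hS)
    (H.cyc.hg1' (fun t => by rw [← hW t]; ring) S hS0 (fun t => by rw [← hS t]; ring))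
    (H.cyc.cyc.hg1' (fun t => by rw [← hW t]; ring) S hS0 (fun t => by rw [← hS t]; ring))
    (fun t => by rw [eq_div_iff hm.ne', ← hW t]; ring) (by field_simp; ring)
    t ‖d1 t‖ ‖d2 t‖ (norm_pos_iff.mpr (H.n1 t)) (norm_pos_iff.mpr (H.n2 t))
    (by simp) (by simp) (by simp [h1]) (dot_self _) (dot_self _) (by rw [← h1]; exact dot_self _)
    (by rw [← h1, ← hS t, dot_self, dot_self, dot_self]) ?_ ?_
  · have := H.inertia hW t
    linarith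
  · exact heron_deriv (H.sd t) (H.se t) (H.inertia hW t) h0

/-- no solution with zero angular momentum stays on the virial locus -/
theorem Sol.saari (H : Sol m h d1 d2 d3 e1 e2 e3) (hm : 0 < m)
    (hW : ∀ t, m * (‖d1 t‖⁻¹ + ‖d2 t‖⁻¹ + ‖d3 t‖⁻¹) = 2 * h) : False := by
  have h1 := fun t => ((H.hs1 t).add (H.cyc.hs1 t)).add (H.cyc.cyc.hs1 t)
  set S := dot (d1 0) (d1 0) + dot (d2 0) (d2 0) + dot (d3 0) (d3 0) with hSdef
  have hS : ∀ t, dot (d1 t) (d1 t) + dot (d2 t) (d2 t) + dot (d3 t) (d3 t) = S := by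
    intro t
    exact is_const_of_deriv_eq_zero (fun x => (h1 x).differentiableAt) (fun x => by
      rw [(h1 x).deriv]
      have := H.inertia hW x
      linarith) t 0
  have hS0 : 0 < S := by
    have := norm_pos_iff.mpr (H.n1 0)
    rw [hSdef, dot_self, dot_self, dot_self]; positivity
  have hpos : ∀ t, 0 < ‖d1 t‖⁻¹ ∧ 0 < ‖d2 t‖⁻¹ ∧ 0 < ‖d3 t‖⁻¹ := fun t =>
    ⟨inv_pos.mpr (norm_pos_iff.mpr (H.n1 t)), inv_pos.mpr (norm_pos_iff.mpr (H.n2 t)),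
      inv_pos.mpr (norm_pos_iff.mpr (H.n3 t))⟩
  have hh : 0 < h := by
    obtain ⟨p1, p2, p3⟩ := hpos 0
    have := hW 0
    have : 0 < m * (‖d1 0‖⁻¹ + ‖d2 0‖⁻¹ + ‖d3 0‖⁻¹) := by positivity
    linarith
  have a1 := fun t => hd_crs (H.hd1 t) (H.hd2 t)
  have a2 : ∀ t, HasDerivAt (fun t => crs (e1 t) (d2 t) + crs (d1 t) (e2 t))
      (-(12 * h / S + 2 * m * (‖d1 t‖⁻¹ ^ 3 + ‖d2 t‖⁻¹ ^ 3 + ‖d3 t‖⁻¹ ^ 3)) *
        crs (d1 t) (d2 t)) t := by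
    intro t
    refine ((hd_crs (H.he1 t) (H.hd2 t)).add (hd_crs (H.hd1 t) (H.he2 t))).congr_deriv ?_
    have k1 := crs_acc m (H.sd t)
    have k2 := lagr2 (H.sd t) (H.se t) (H.inertia hW t) (H.am t)
    rw [H.en t, hW t, hS t] at k2
    have k3 : crs (e1 t) (e2 t) = -(6 * h / S) * crs (d1 t) (d2 t) := by
      field_simp
      linear_combination k2
    linear_combination k1 + 2 * k3
  have hq : ∀ t, 0 < 12 * h / S + 2 * m * (‖d1 t‖⁻¹ ^ 3 + ‖d2 t‖⁻¹ ^ 3 + ‖d3 t‖⁻¹ ^ 3) := by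
    intro t
    obtain ⟨p1, p2, p3⟩ := hpos t
    positivity
  obtain ⟨t, ht⟩ : ∃ t, crs (d1 t) (d2 t) = 0 := by
    by_cases c1 : ∀ t, 0 ≤ crs (d1 t) (d2 t)
    · have := concave_zero a1 a2 (fun t => by nlinarith [hq t, c1 t]) c1 0
      rcases mul_eq_zero.mp this with k | k
      · exact absurd k (by linarith [hq 0])
      · exact ⟨0, k⟩
    by_cases c2 : ∀ t, crs (d1 t) (d2 t) ≤ 0
    · have := concave_zero (fun t => (a1 t).neg) (fun t => (a2 t).neg)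
        (fun t => by nlinarith [hq t, c2 t]) (fun t => by
          simp only [Pi.neg_apply]; linarith [c2 t]) 0
      rcases mul_eq_zero.mp (neg_eq_zero.mp this) with k | k
      · exact absurd k (by linarith [hq 0])
      · exact ⟨0, k⟩
    push Not at c1 c2
    obtain ⟨x, hx⟩ := c1
    obtain ⟨y, hy⟩ := c2
    have hc : Continuous fun t => crs (d1 t) (d2 t) :=
      continuous_iff_continuousAt.mpr fun t => (a1 t).continuousAt
    exact intermediate_value_univ x y hc ⟨hx.le, hy.le⟩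
  obtain ⟨k1, k2⟩ := third (H.sd t)
  rcases collinear (H.sd t) ht with k | k | k
  · exact H.no_coll hm hW S hS0 hS t ht k
  · exact H.cyc.no_coll hm (fun t => by rw [← hW t]; ring) S hS0
      (fun t => by rw [← hS t]; ring) t (by
        simp only [crs, k1, k2] at ht ⊢; linear_combination ht) k
  · exact H.cyc.cyc.no_coll hm (fun t => by rw [← hW t]; ring) S hS0
      (fun t => by rw [← hS t]; ring) t (by
        simp only [crs, k1, k2] at ht ⊢; linear_combination ht) k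

end Pool.Agent.H376Z.TB
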